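import Mathlib

/-!
# A form of Minkowski's theorem for fractional ideals (helper68, for the project EOW of helper35)
-/

set_option autoImplicit false

open NumberField NumberField.mixedEmbedding NumberField.InfinitePlace MeasureTheory Finset
open scoped nonZeroDivisors NNReal ENNReal

namespace Pool.Agent.Q68.EOW

variable (K : Type) [Field K] [NumberField K]

/-- Minkowski: elements of a fractional ideal with bounded conjugates. -/
theorem mink : ∃ C : ℝ, 1 ≤ C ∧ ∀ (J : (FractionalIdeal (𝓞 K)⁰ K)ˣ) (g : InfinitePlace K → ℝ),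
    (∀ w, 0 < g w) →
    ((FractionalIdeal.absNorm (J : FractionalIdeal (𝓞 K)⁰ K) : ℚ) : ℝ) ≤ ∏ w, g w ^ mult w →
    ∃ β ∈ (J : FractionalIdeal (𝓞 K)⁰ K), β ≠ 0 ∧ ∀ w : InfinitePlace K, w β ≤ C * g w := by
  classical
  obtain ⟨A, hA⟩ : ∃ A : ℝ≥0∞, A = volume (ZSpan.fundamentalDomain (latticeBasis K)) *
    (2 : ℝ≥0∞) ^ (Module.finrank ℝ (mixedSpace K)) := ⟨_, rfl⟩
  have hAtop : A < ⊤ := by
    rw [hA]
    exact ENNReal.mul_lt_top (ZSpan.fundamentalDomain_isBounded _).measure_lt_top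
      (ENNReal.pow_lt_top ENNReal.ofNat_lt_top)
  obtain ⟨C, hC⟩ : ∃ C : ℝ, C = 1 + A.toReal := ⟨_, rfl⟩
  have hA0 : 0 ≤ A.toReal := ENNReal.toReal_nonneg
  have hC1 : 1 ≤ C := by rw [hC]; linarith
  refine ⟨C, hC1, fun J g hg hJ => ?_⟩
  have hCpos : 0 < C := by linarith
  obtain ⟨P, hP⟩ : ∃ P : ℝ, P = ∏ w, g w ^ mult w := ⟨_, rfl⟩
  have hP0 : 0 < P := by
    rw [hP]
    exact prod_pos fun w _ => pow_pos (hg w) _
  have hbound : minkowskiBound K J < volume (convexBodyLT K fun w => (C * g w).toNNReal) := by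
    rw [convexBodyLT_volume]
    have h1 : minkowskiBound K J = ENNReal.ofReal (FractionalIdeal.absNorm J.1) * A := by
      unfold minkowskiBound
      rw [volume_fundamentalDomain_fractionalIdealLatticeBasis, hA, mul_assoc]
    have h2 : ((∏ w : InfinitePlace K, (C * g w).toNNReal ^ mult w : ℝ≥0) : ℝ≥0∞) =
        ENNReal.ofReal (C ^ Module.finrank ℚ K * P) := by
      have h3 : C ^ Module.finrank ℚ K * P = ∏ w : InfinitePlace K, (C * g w) ^ mult w := by
        simp only [mul_pow, prod_mul_distrib, prod_pow_eq_pow_sum, sum_mult_eq, hP]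
      rw [h3, ENNReal.ofReal, Real.toNNReal_prod_of_nonneg fun w _ =>
        pow_nonneg (mul_pos hCpos (hg w)).le _]
      congr 1
      refine prod_congr rfl fun w _ => ?_
      rw [Real.toNNReal_pow (mul_pos hCpos (hg w)).le]
    have h4 : C * P ≤ C ^ Module.finrank ℚ K * P :=
      mul_le_mul_of_nonneg_right (le_self_pow₀ hC1 Module.finrank_pos.ne') hP0.le
    have h5 : A = ENNReal.ofReal A.toReal := (ENNReal.ofReal_toReal hAtop.ne).symm
    rw [h1, h2, h5, ← ENNReal.ofReal_mul (by exact_mod_cast FractionalIdeal.absNorm_nonneg J.1)]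
    have h6 : ENNReal.ofReal (((FractionalIdeal.absNorm J.1 : ℚ) : ℝ) * A.toReal) <
        ENNReal.ofReal (C ^ Module.finrank ℚ K * P) := by
      rw [ENNReal.ofReal_lt_ofReal_iff (by positivity)]
      refine lt_of_le_of_lt (mul_le_mul_of_nonneg_right hJ hA0) ?_
      rw [← hP]
      refine lt_of_lt_of_le ?_ h4
      rw [hC]
      linarith
    refine lt_of_lt_of_le h6 ?_
    have h7 : (1 : ℝ≥0∞) ≤ (convexBodyLTFactor K : ℝ≥0∞) := by
      exact_mod_cast one_le_convexBodyLTFactor K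
    calc ENNReal.ofReal (C ^ Module.finrank ℚ K * P) = 1 * ENNReal.ofReal (C ^ Module.finrank ℚ K * P) :=
          (one_mul _).symm
      _ ≤ _ := by gcongr
  obtain ⟨β, hβ, hβ0, hβw⟩ := exists_ne_zero_mem_ideal_lt K J hbound
  refine ⟨β, hβ, hβ0, fun w => ?_⟩
  have h8 := (hβw w).le
  rwa [Real.coe_toNNReal _ (mul_pos hCpos (hg w)).le] at h8

end Pool.Agent.Q68.EOW
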