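import Pool.Agent.Q35.EOW.Stm
import Pool.Agent.Q68.EOW.Mink

/-!
# Project EOW of helper35, job THL: few points of `V` in a box are small for some place (helper68)
-/

set_option autoImplicit false

open NumberField Finset
open Pool.Agent.Q35.MM (bx dg mem_bx)
open Pool.Agent.Q35.EO Pool.Agent.Q35.EOW

namespace Pool.Agent.Q68.EOW

section

variable {K : Type} [Field K] [NumberField K]

theorem dg_pos : 0 < dg K := Module.finrank_pos

/-- the `d`-th root of `κ` -/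
noncomputable def rt (K : Type) [Field K] [NumberField K] (κ : ℝ) : ℝ := κ ^ (1 / (dg K : ℝ))

theorem rt_pos {κ : ℝ} (h : 0 < κ) : 0 < rt K κ := Real.rpow_pos_of_pos h _

theorem rt_pow {κ : ℝ} (h : 0 < κ) : rt K κ ^ dg K = κ := by
  have hd : (dg K : ℝ) ≠ 0 := by exact_mod_cast (dg_pos (K := K)).ne'
  unfold rt
  rw [← Real.rpow_natCast, ← Real.rpow_mul h.le, one_div_mul_cancel hd, Real.rpow_one]

theorem rt_le_one {κ : ℝ} (h : 0 < κ) (h1 : κ ≤ 1) : rt K κ ≤ 1 :=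
  Real.rpow_le_one h.le h1 (by positivity)

theorem le_rt {κ : ℝ} (h : 0 < κ) (h1 : κ ≤ 1) : κ ≤ rt K κ := by
  conv_lhs => rw [← rt_pow (K := K) h]
  exact pow_le_of_le_one (rt_pos h).le (rt_le_one h h1) (dg_pos (K := K)).ne'

/-- the scaling argument -/
theorem scale (hLAT : S_LAT) (N r : ℕ) (I : Ideal (𝓞 K)) (c0 : ℝ) (hI : I ≠ ⊥) (hc0 : 1 ≤ c0) (hr : 1 ≤ r) :
    ∃ CL : ℝ, 1 ≤ CL ∧ ∀ t : (K →+* ℂ) → ℝ, Shp c0 t →
    ∀ (V : Submodule K (Fin N → K)) (σ B : ℕ) (κ : ℝ), Module.finrank K V = r → 1 ≤ σ →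
      V ≤ Submodule.span K {x : Fin N → K | x ∈ V ∧ x ∈ bx K N σ} → 0 < κ → κ ≤ 1 →
      2 * CL * (σ : ℝ) ≤ κ * B → ∀ c : ℝ, 1 ≤ c → ∀ X : Finset (Fin N → K),
      (∀ x ∈ X, x ∈ bxg K I t N B ∧ x ∈ V) → ∀ α : K, α ≠ 0 →
      (∀ x ∈ X, ∀ a, α * x a ∈ S1g K I t ⌈c * rt K κ * B⌉₊) →
      (X.card : ℝ) ≤ 2 * (2 * c) ^ (dg K * r) * κ * nug K I t N V B := by
  classical
  obtain ⟨CL, hCL, hL⟩ := hLAT K N r I c0 hI hc0
  refine ⟨CL, hCL, ?_⟩
  intro t ht V σ B κ hV hσ hspan hκ hκ1 hB c hc X hX α hα hXα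
  obtain ⟨μ, hμ⟩ : ∃ μ : ℝ, μ = rt K κ := ⟨_, rfl⟩
  rw [← hμ] at hXα
  have hμ0 : 0 < μ := by rw [hμ]; exact rt_pos hκ
  have hμκ : κ ≤ μ := by rw [hμ]; exact le_rt hκ hκ1
  have hμd : μ ^ dg K = κ := by rw [hμ]; exact rt_pow hκ
  have hσ1 : (1 : ℝ) ≤ σ := by exact_mod_cast hσ
  have hB0 : (0 : ℝ) ≤ B := Nat.cast_nonneg _
  have hκB : κ * B ≤ c * μ * B := by
    have h1 : κ ≤ c * μ := hμκ.trans (le_mul_of_one_le_left hμ0.le hc)
    exact mul_le_mul_of_nonneg_right h1 hB0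
  obtain ⟨ρ, hρ⟩ : ∃ ρ : ℕ, ρ = ⌈c * μ * B⌉₊ := ⟨_, rfl⟩
  rw [← hρ] at hXα
  have hρ1 : c * μ * B ≤ ρ := by rw [hρ]; exact Nat.le_ceil _
  have h2CL : 2 * CL * (σ : ℝ) ≤ c * μ * B := hB.trans hκB
  have hcB1 : 1 ≤ c * μ * B := by nlinarith
  have hρ2 : (ρ : ℝ) ≤ 2 * c * μ * B := by
    have := (Nat.ceil_lt_add_one (show 0 ≤ c * μ * B by linarith)).le
    rw [← hρ] at this
    linarith
  have hcard : X.card ≤ nug K I t N V ρ := by
    unfold nug
    refine Finset.card_le_card_of_injOn (fun x => α • x) ?_ ?_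
    · intro x hx
      rw [mem_coe, mem_filter]
      refine ⟨?_, V.smul_mem α (hX x hx).2⟩
      rw [mem_bxg]
      intro a
      exact hXα x hx a
    · intro x _ y _ hxy
      exact smul_right_injective (Fin N → K) hα hxy
  have hcard' : (X.card : ℝ) ≤ nug K I t N V ρ := by exact_mod_cast hcard
  have hnB : (0 : ℝ) ≤ nug K I t N V B := Nat.cast_nonneg _
  have hcd : (2 * c * μ) ^ (dg K * r) ≤ (2 * c) ^ (dg K * r) * κ := by
    rw [mul_pow]
    refine mul_le_mul_of_nonneg_left ?_ (by positivity)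
    rw [pow_mul, hμd]
    exact pow_le_of_le_one hκ.le hκ1 (by omega)
  by_cases hρB : ρ ≤ B
  · -- the main case
    have hBpos : (0 : ℝ) < B := by
      by_contra hcon
      have : (B : ℝ) = 0 := le_antisymm (not_lt.1 hcon) hB0
      rw [this, mul_zero] at hcB1
      linarith
    have hρpos : (0 : ℝ) < ρ := by linarith
    have h3 := hL t ht V σ ρ B hV hσ hspan (by linarith) hρB
    have h4 : CL * ((σ : ℝ) / ρ) ≤ 1 / 2 := by
      rw [mul_div_assoc', div_le_iff₀ hρpos]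
      linarith
    have hnρ : (0 : ℝ) ≤ (nug K I t N V ρ : ℝ) * (B : ℝ) ^ (dg K * r) := by positivity
    have h5 := (abs_le.1 h3).1
    have h6 := mul_le_mul_of_nonneg_right h4 hnρ
    have h7 : (nug K I t N V ρ : ℝ) * (B : ℝ) ^ (dg K * r) ≤
        2 * ((nug K I t N V B : ℝ) * (ρ : ℝ) ^ (dg K * r)) := by linarith
    have h8 : (ρ : ℝ) ^ (dg K * r) ≤ (2 * c * μ) ^ (dg K * r) * (B : ℝ) ^ (dg K * r) := by
      rw [← mul_pow]
      exact pow_le_pow_left₀ hρpos.le hρ2 _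
    have h9 : (nug K I t N V ρ : ℝ) * (B : ℝ) ^ (dg K * r) ≤
        (2 * (2 * c) ^ (dg K * r) * κ * nug K I t N V B) * (B : ℝ) ^ (dg K * r) := by
      refine h7.trans ?_
      calc 2 * ((nug K I t N V B : ℝ) * (ρ : ℝ) ^ (dg K * r)) ≤
          2 * ((nug K I t N V B : ℝ) * ((2 * c * μ) ^ (dg K * r) * (B : ℝ) ^ (dg K * r))) := by gcongr
        _ ≤ 2 * ((nug K I t N V B : ℝ) * (((2 * c) ^ (dg K * r) * κ) * (B : ℝ) ^ (dg K * r))) := by gcongr
        _ = _ := by ring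
    exact hcard'.trans (le_of_mul_le_mul_right h9 (by positivity))
  · -- the trivial case
    have hρB' : (B : ℝ) < ρ := by exact_mod_cast not_le.1 hρB
    have h3 : 1 < 2 * c * μ := by
      by_contra hcon
      have : 2 * c * μ * B ≤ 1 * B := mul_le_mul_of_nonneg_right (not_lt.1 hcon) hB0
      linarith
    have h4 : 1 ≤ (2 * c) ^ (dg K * r) * κ := le_trans (one_le_pow₀ h3.le) hcd
    have h5 : (X.card : ℝ) ≤ nug K I t N V B := by
      have : X ⊆ (bxg K I t N B).filter fun x => x ∈ V := fun x hx =>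
        mem_filter.2 ⟨(hX x hx).1, (hX x hx).2⟩
      exact_mod_cast card_le_card this
    have h6 := mul_le_mul_of_nonneg_right h4 hnB
    nlinarith

/-- archimedean places: a multiplier -/
theorem arch : ∃ C : ℝ, 1 ≤ C ∧ ∀ (w₀ : InfinitePlace K) (κ : ℝ), 0 < κ → κ ≤ 1 →
    ∃ α : 𝓞 K, (α : K) ≠ 0 ∧ (∀ w : InfinitePlace K, w ≠ w₀ → w (α : K) ≤ C * rt K κ) ∧
      w₀ (α : K) ≤ C * rt K κ / κ := by
  classical
  obtain ⟨C, hC, hM⟩ := mink K
  refine ⟨C, hC, fun w₀ κ hκ hκ1 => ?_⟩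
  obtain ⟨α, hα, hα0, hαw⟩ := hM 1 (fun w => if w = w₀ then rt K κ / κ else rt K κ) (fun w => by
    split_ifs
    · exact div_pos (rt_pos hκ) hκ
    · exact rt_pos hκ) (by
    have h1 : ∏ w : InfinitePlace K, (if w = w₀ then rt K κ / κ else rt K κ) ^ w.mult =
        (∏ w : InfinitePlace K, rt K κ ^ w.mult) * (κ ^ w₀.mult)⁻¹ := by
      have h2 : ∀ w : InfinitePlace K, (if w = w₀ then rt K κ / κ else rt K κ) ^ w.mult =
          rt K κ ^ w.mult * (if w = w₀ then (κ ^ w.mult)⁻¹ else 1) := by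
        intro w
        split_ifs
        · rw [div_pow, div_eq_mul_inv]
        · rw [mul_one]
      rw [prod_congr rfl fun w _ => h2 w, prod_mul_distrib, prod_ite_eq' univ w₀, if_pos (mem_univ _)]
    rw [h1, prod_pow_eq_pow_sum, InfinitePlace.sum_mult_eq]
    have h3 : rt K κ ^ Module.finrank ℚ K = κ := rt_pow hκ
    rw [h3]
    have h4 : κ ^ w₀.mult ≤ κ := pow_le_of_le_one hκ.le hκ1 InfinitePlace.mult_ne_zero
    have h5 : (((FractionalIdeal.absNorm ((1 : (FractionalIdeal (nonZeroDivisors (𝓞 K)) K)ˣ) :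
        FractionalIdeal (nonZeroDivisors (𝓞 K)) K) : ℚ) : ℝ)) = 1 := by
      rw [Units.val_one, FractionalIdeal.absNorm_one, Rat.cast_one]
    rw [h5, ← div_eq_mul_inv, le_div_iff₀ (pow_pos hκ _), one_mul]
    exact h4)
  rw [Units.val_one, FractionalIdeal.mem_one_iff] at hα
  obtain ⟨y, hy⟩ := hα
  refine ⟨y, ?_, ?_, ?_⟩
  · have h6 : (y : K) = α := hy
    rw [h6]
    exact hα0
  · intro w hw
    have h6 : (y : K) = α := hy
    have h7 := hαw w
    rw [if_neg hw] at h7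
    rw [h6]
    exact h7
  · have h6 : (y : K) = α := hy
    have h7 := hαw w₀
    rw [if_pos rfl] at h7
    rw [h6, mul_div_assoc]
    exact h7

/-- small elements lie in powers of the prime ideal -/
theorem mem_pow (v : FinitePlace K) (j : ℕ) (κ : ℝ)
    (hj : ∀ k < j, κ < ((Ideal.absNorm v.maximalIdeal.asIdeal : ℝ) ^ k)⁻¹) (x : 𝓞 K) (hx : v (x : K) ≤ κ) :
    x ∈ v.maximalIdeal.asIdeal ^ j := by
  rw [← v.maximalIdeal.intValuation_le_pow_iff_mem]
  rw [← FinitePlace.norm_embedding_eq] at hx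
  have h1 := FinitePlace.norm_embedding_int K (v := v.maximalIdeal) x
  have h0 : algebraMap (𝓞 K) K x = (x : K) := rfl
  rw [h0] at h1
  rw [h1] at hx
  by_contra hcon
  have h2 := not_le.1 hcon
  have hne : v.maximalIdeal.intValuation x ≠ 0 := fun h => by
    rw [h] at h2
    exact absurd h2 (by simp)
  obtain ⟨m, hm⟩ : ∃ m : ℤ, v.maximalIdeal.intValuation x = WithZero.exp m :=
    ⟨WithZero.log _, (WithZero.exp_log hne).symm⟩
  have h3 := v.maximalIdeal.intValuation_le_one x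
  rw [hm, ← WithZero.exp_zero, WithZero.exp_le_exp] at h3
  rw [hm, WithZero.exp_lt_exp] at h2
  obtain ⟨k, hk⟩ : ∃ k : ℕ, m = -(k : ℤ) := ⟨(-m).toNat, by omega⟩
  have h4 := hj k (by omega)
  have h5 : ((WithZeroMulInt.toNNReal (HeightOneSpectrum.absNorm_ne_zero v.maximalIdeal)
      (v.maximalIdeal.intValuation x) : NNReal) : ℝ) =
      ((Ideal.absNorm v.maximalIdeal.asIdeal : ℝ) ^ k)⁻¹ := by
    rw [WithZeroMulInt.toNNReal_neg_apply _ hne]
    have h6 : ∀ (y : WithZero (Multiplicative ℤ)) (hy : y ≠ 0), y = WithZero.exp m →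
        (WithZero.unzero hy).toAdd = m := by
      rintro y hy rfl
      rfl
    rw [h6 _ hne hm, hk, zpow_neg, zpow_natCast]
    push_cast
    rfl
  rw [h5] at hx
  linarith

/-- finite places: a multiplier -/
theorem fin : ∃ C : ℝ, 1 ≤ C ∧ ∀ (v : FinitePlace K) (κ : ℝ), 0 < κ → κ ≤ 1 →
    ∃ β : K, β ≠ 0 ∧ (∀ w : InfinitePlace K, w β ≤ C * rt K κ) ∧
      ∀ x : 𝓞 K, v (x : K) ≤ κ → ∃ y : 𝓞 K, (y : K) = β * x := by
  classical
  obtain ⟨C, hC, hM⟩ := mink K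
  refine ⟨C, hC, fun v κ hκ hκ1 => ?_⟩
  obtain ⟨P, hP⟩ : ∃ P : Ideal (𝓞 K), P = v.maximalIdeal.asIdeal := ⟨_, rfl⟩
  have hP0 : P ≠ ⊥ := by rw [hP]; exact v.maximalIdeal.ne_bot
  have hP1 : P ≠ ⊤ := by rw [hP]; exact v.maximalIdeal.isPrime.ne_top
  obtain ⟨n, hn⟩ : ∃ n : ℕ, n = Ideal.absNorm P := ⟨_, rfl⟩
  have hn0 : n ≠ 0 := by
    rw [hn, Ne, Ideal.absNorm_eq_zero_iff]
    exact hP0
  have hn1 : n ≠ 1 := by
    rw [hn, Ne, Ideal.absNorm_eq_one_iff]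
    exact hP1
  have hn2 : (2 : ℝ) ≤ n := by exact_mod_cast (show 2 ≤ n by omega)
  have hex : ∃ j : ℕ, ((n : ℝ) ^ j)⁻¹ ≤ κ := by
    obtain ⟨j, hj⟩ := exists_pow_lt_of_lt_one hκ (show ((n : ℝ))⁻¹ < 1 from
      inv_lt_one_of_one_lt₀ (by linarith))
    exact ⟨j, by rw [← inv_pow]; exact hj.le⟩
  obtain ⟨j, hj1, hj2⟩ : ∃ j : ℕ, ((n : ℝ) ^ j)⁻¹ ≤ κ ∧ ∀ k < j, κ < ((n : ℝ) ^ k)⁻¹ :=
    ⟨Nat.find hex, Nat.find_spec hex, fun k hk => not_le.1 (Nat.find_min hex hk)⟩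
  have hPj : ((P ^ j : Ideal (𝓞 K)) : FractionalIdeal (nonZeroDivisors (𝓞 K)) K) ≠ 0 := by
    rw [Ne, FractionalIdeal.coeIdeal_eq_zero]
    exact pow_ne_zero j hP0
  obtain ⟨β, hβ, hβ0, hβw⟩ := hM (Units.mk0 _ hPj)⁻¹ (fun _ => rt K κ) (fun _ => rt_pos hκ) (by
    rw [prod_pow_eq_pow_sum, InfinitePlace.sum_mult_eq]
    have h3 : rt K κ ^ Module.finrank ℚ K = κ := rt_pow hκ
    rw [h3, Units.val_inv_eq_inv_val, Units.val_mk0, map_inv₀, FractionalIdeal.coeIdeal_absNorm, map_pow, ← hn]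
    push_cast
    exact hj1)
  rw [Units.val_inv_eq_inv_val, Units.val_mk0, FractionalIdeal.mem_inv_iff hPj] at hβ
  refine ⟨β, hβ0, hβw, fun x hx => ?_⟩
  have hxP : x ∈ P ^ j := by
    rw [hP]
    refine mem_pow v j κ ?_ x hx
    rw [← hP, ← hn]
    exact hj2
  have h1 := hβ (x : K) (FractionalIdeal.mem_coeIdeal_of_mem _ hxP)
  rw [FractionalIdeal.mem_one_iff] at h1
  obtain ⟨y, hy⟩ := h1
  exact ⟨y, hy⟩

end

/-- **EOW-1 (THL).** -/
theorem thl (hLAT : S_LAT) : S_THL := by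
  classical
  intro K _ _ N r I c0 S hI hc0 hr
  obtain ⟨CL, hCL, hsc⟩ := scale (K := K) hLAT N r I c0 hI hc0 hr
  obtain ⟨C1, hC1, harch⟩ := arch (K := K)
  obtain ⟨C2, hC2, hfin⟩ := fin (K := K)
  -- an integer in the ideal
  obtain ⟨m, hm⟩ : ∃ m : ℕ, m = Ideal.absNorm I := ⟨_, rfl⟩
  have hm0 : m ≠ 0 := by
    rw [hm, Ne, Ideal.absNorm_eq_zero_iff]
    exact hI
  have hm1 : (1 : ℝ) ≤ m := by exact_mod_cast (show 1 ≤ m by omega)
  have hmI : (m : 𝓞 K) ∈ I := by rw [hm]; exact Ideal.absNorm_mem I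
  obtain ⟨c, hc⟩ : ∃ c : ℝ, c = c0 * C1 + c0 * m * C2 := ⟨_, rfl⟩
  have hca : c0 * C1 ≤ c := by rw [hc]; exact le_add_of_nonneg_right (by positivity)
  have hcb : c0 * m * C2 ≤ c := by rw [hc]; exact le_add_of_nonneg_left (by positivity)
  have hc1 : 1 ≤ c := le_trans (one_le_mul_of_one_le_of_one_le hc0 hC1) hca
  obtain ⟨D, hD⟩ : ∃ D : ℝ, D = 2 * (2 * c) ^ (dg K * r) := ⟨_, rfl⟩
  have hD0 : 0 ≤ D := by rw [hD]; positivity
  obtain ⟨M, hM⟩ : ∃ M : ℝ, M = (Fintype.card (K →+* ℂ) : ℝ) + S.card := ⟨_, rfl⟩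
  have hM0 : 0 ≤ M := by rw [hM]; positivity
  refine ⟨2 * CL + M * D, 1, by nlinarith [mul_nonneg hM0 hD0], one_pos, ?_⟩
  intro t ht V σ B κ hV hσ hspan hκ hκ1 hB
  rw [Real.rpow_one]
  have hσ0 : (0 : ℝ) ≤ σ := Nat.cast_nonneg _
  have hB2 : 2 * CL * (σ : ℝ) ≤ κ * B := by
    refine le_trans ?_ hB
    exact mul_le_mul_of_nonneg_right (le_add_of_nonneg_right (by positivity)) hσ0
  have hnB : (0 : ℝ) ≤ nug K I t N V B := Nat.cast_nonneg _
  have hBn : (0 : ℝ) ≤ B := Nat.cast_nonneg _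
  have hrt : 0 < rt K κ := rt_pos hκ
  have htpos : ∀ φ, 0 < t φ := fun φ => lt_of_lt_of_le (by positivity) (ht φ).1
  have hct : ∀ φ, 1 ≤ c0 * t φ := by
    intro φ
    have := (ht φ).1
    rw [div_le_iff₀ (by linarith)] at this
    linarith
  -- one archimedean place
  have hA : ∀ φ₀ : K →+* ℂ, ((((bxg K I t N B).filter fun x => x ∈ V ∧
      ∀ a, ‖φ₀ (x a)‖ ≤ κ * B).card : ℕ) : ℝ) ≤ D * κ * nug K I t N V B := by
    intro φ₀
    obtain ⟨α, hα0, hαw, hαw0⟩ := harch (InfinitePlace.mk φ₀) κ hκ hκ1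
    rw [hD]
    refine hsc t ht V σ B κ hV hσ hspan hκ hκ1 hB2 c hc1 _ (fun x hx => ?_) (α : K) hα0
      (fun x hx a => ?_)
    · rw [mem_filter] at hx
      exact ⟨hx.1, hx.2.1⟩
    · rw [mem_filter] at hx
      obtain ⟨hxb, -, hxs⟩ := hx
      rw [mem_bxg] at hxb
      obtain ⟨⟨y, hy, hyx⟩, hxφ⟩ := hxb a
      refine ⟨⟨α * y, I.mul_mem_left α hy, ?_⟩, fun φ => ?_⟩
      · rw [map_mul, hyx]
      · refine le_trans ?_ (mul_le_mul_of_nonneg_left (Nat.le_ceil _) (htpos φ).le)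
        rw [map_mul, norm_mul]
        by_cases hw : InfinitePlace.mk φ = InfinitePlace.mk φ₀
        · have h1 : ‖φ (x a)‖ ≤ κ * B := by
            rw [← InfinitePlace.apply, hw, InfinitePlace.apply]
            exact hxs a
          have h2 : ‖φ (α : K)‖ ≤ C1 * rt K κ / κ := by
            rw [← InfinitePlace.apply, hw]
            exact hαw0
          calc ‖φ (α : K)‖ * ‖φ (x a)‖ ≤ (C1 * rt K κ / κ) * (κ * B) := by gcongr
            _ = C1 * rt K κ * B := by field_simp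
            _ ≤ (c0 * t φ) * (C1 * rt K κ * B) := le_mul_of_one_le_left (by positivity) (hct φ)
            _ = t φ * ((c0 * C1) * rt K κ * B) := by ring
            _ ≤ t φ * (c * rt K κ * B) := by
              have := htpos φ
              gcongr
        · have h2 : ‖φ (α : K)‖ ≤ C1 * rt K κ := by
            rw [← InfinitePlace.apply]
            exact hαw _ hw
          calc ‖φ (α : K)‖ * ‖φ (x a)‖ ≤ (C1 * rt K κ) * (t φ * B) := by
                gcongr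
                exact hxφ φ
            _ ≤ c0 * ((C1 * rt K κ) * (t φ * B)) := le_mul_of_one_le_left (by
                have := htpos φ
                positivity) hc0
            _ = t φ * ((c0 * C1) * rt K κ * B) := by ring
            _ ≤ t φ * (c * rt K κ * B) := by
              have := htpos φ
              gcongr
  -- one finite place
  have hF : ∀ v : FinitePlace K, ((((bxg K I t N B).filter fun x => x ∈ V ∧
      ∀ a, v (x a) ≤ κ).card : ℕ) : ℝ) ≤ D * κ * nug K I t N V B := by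
    intro v
    obtain ⟨β, hβ0, hβw, hβi⟩ := hfin v κ hκ hκ1
    rw [hD]
    refine hsc t ht V σ B κ hV hσ hspan hκ hκ1 hB2 c hc1 _ (fun x hx => ?_) ((m : K) * β)
      (mul_ne_zero (by exact_mod_cast hm0) hβ0) (fun x hx a => ?_)
    · rw [mem_filter] at hx
      exact ⟨hx.1, hx.2.1⟩
    · rw [mem_filter] at hx
      obtain ⟨hxb, -, hxs⟩ := hx
      rw [mem_bxg] at hxb
      obtain ⟨⟨y, hy, hyx⟩, hxφ⟩ := hxb a
      have hyx' : (y : K) = x a := hyx
      obtain ⟨z, hz⟩ := hβi y (by rw [hyx']; exact hxs a)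
      refine ⟨⟨(m : 𝓞 K) * z, I.mul_mem_right z hmI, ?_⟩, fun φ => ?_⟩
      · have hz' : algebraMap (𝓞 K) K z = β * y := hz
        rw [map_mul, hz', map_natCast, hyx']
        ring
      · refine le_trans ?_ (mul_le_mul_of_nonneg_left (Nat.le_ceil _) (htpos φ).le)
        rw [map_mul, norm_mul, map_mul, norm_mul, map_natCast, Complex.norm_natCast]
        have h2 : ‖φ β‖ ≤ C2 * rt K κ := by
          rw [← InfinitePlace.apply]
          exact hβw _
        calc (m : ℝ) * ‖φ β‖ * ‖φ (x a)‖ ≤ (m : ℝ) * (C2 * rt K κ) * (t φ * B) := by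
              gcongr
              exact hxφ φ
          _ ≤ c0 * ((m : ℝ) * (C2 * rt K κ) * (t φ * B)) := le_mul_of_one_le_left (by
              have := htpos φ
              positivity) hc0
          _ = t φ * ((c0 * m * C2) * rt K κ * B) := by ring
          _ ≤ t φ * (c * rt K κ * B) := by
            have := htpos φ
            gcongr
  -- the union
  have hsub : ((bxg K I t N B).filter fun x => x ∈ V ∧
      ((∃ φ : K →+* ℂ, ∀ a, ‖φ (x a)‖ ≤ κ * B) ∨ ∃ v ∈ S, ∀ a, v (x a) ≤ κ)) ⊆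
      (univ.biUnion fun φ : K →+* ℂ => (bxg K I t N B).filter fun x => x ∈ V ∧
        ∀ a, ‖φ (x a)‖ ≤ κ * B) ∪
      (S.biUnion fun v => (bxg K I t N B).filter fun x => x ∈ V ∧ ∀ a, v (x a) ≤ κ) := by
    intro x hx
    rw [mem_filter] at hx
    rw [mem_union, mem_biUnion, mem_biUnion]
    obtain ⟨h1, h2, h3 | h3⟩ := hx
    · obtain ⟨φ, hφ⟩ := h3
      exact Or.inl ⟨φ, mem_univ φ, mem_filter.2 ⟨h1, h2, hφ⟩⟩
    · obtain ⟨v, hv, hvx⟩ := h3
      exact Or.inr ⟨v, hv, mem_filter.2 ⟨h1, h2, hvx⟩⟩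
  have hcard : (nuthin S I t N V κ B : ℝ) ≤ M * (D * κ * nug K I t N V B) := by
    have h1 : nuthin S I t N V κ B ≤
        ∑ φ : K →+* ℂ, ((bxg K I t N B).filter fun x => x ∈ V ∧ ∀ a, ‖φ (x a)‖ ≤ κ * B).card +
        ∑ v ∈ S, ((bxg K I t N B).filter fun x => x ∈ V ∧ ∀ a, v (x a) ≤ κ).card := by
      unfold nuthin
      refine le_trans (le_of_eq (by congr)) ((card_le_card hsub).trans ?_)
      exact (card_union_le _ _).trans (Nat.add_le_add card_biUnion_le card_biUnion_le)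
    have h2 : (nuthin S I t N V κ B : ℝ) ≤
        ∑ φ : K →+* ℂ, ((((bxg K I t N B).filter fun x => x ∈ V ∧ ∀ a, ‖φ (x a)‖ ≤ κ * B).card : ℕ) : ℝ) +
        ∑ v ∈ S, ((((bxg K I t N B).filter fun x => x ∈ V ∧ ∀ a, v (x a) ≤ κ).card : ℕ) : ℝ) := by
      exact_mod_cast h1
    refine h2.trans ?_
    have h3 := sum_le_card_nsmul (univ : Finset (K →+* ℂ)) _ _ fun φ _ => hA φ
    have h4 := sum_le_card_nsmul S _ _ fun v _ => hF v
    rw [nsmul_eq_mul] at h3 h4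
    rw [hM, add_mul]
    exact add_le_add h3 h4
  refine hcard.trans ?_
  have h5 : 0 ≤ κ * (nug K I t N V B : ℝ) := by positivity
  calc M * (D * κ * nug K I t N V B) = M * D * (κ * nug K I t N V B) := by ring
    _ ≤ (2 * CL + M * D) * (κ * nug K I t N V B) := by
      refine mul_le_mul_of_nonneg_right ?_ h5
      linarith
    _ = _ := by ring

end Pool.Agent.Q68.EOW
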